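import Mathlib
import Pool.Agent.H96.HaarIx

set_option autoImplicit false
open Filter Topology MeasureTheory

namespace Pool.Agent.Results.MP_8173ef_an.Counter

open Pool.Agent.H96.Haar

/-- Lebesgue measure on the unit square -/
noncomputable def sqm : Measure (ℝ × ℝ) := volume.restrict (Set.Icc 0 1 ×ˢ Set.Icc 0 1)

/-- rectangular sums, indices counted from zero -/
noncomputable def S (a : ℕ → ℕ → ℝ) (φ : ℕ → ℕ → ℝ × ℝ → ℝ) (m n : ℕ) (z : ℝ × ℝ) : ℝ :=
  ∑ i ∈ Finset.range (m + 1), ∑ k ∈ Finset.range (n + 1), a i k * φ i k z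

theorem sqm_eq : sqm = nu.prod nu := by
  rw [sqm, nu, Measure.prod_restrict]; rfl

theorem good_unique (q r : ℕ × ℕ) (hq : ¬ bad q) (hr : ¬ bad r) (x : ℝ)
    (h1 : hn (ix q) x ≠ 0) (h2 : hn (ix r) x ≠ 0) : q = r := by
  apply ix_inj
  rw [ix_good q hq] at h1 ⊢
  rw [ix_good r hr] at h2 ⊢
  have h3 := h_ne _ _ _ (right_ne_zero_of_mul h1)
  have h4 := h_ne _ _ _ (right_ne_zero_of_mul h2)
  simp only at h3 h4
  have key : ∀ l m, D l x = 1 → D m x = 1 → ¬ l < m := by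
    intro l m hl hm hlm
    rw [D_div l (m - l), show l + (m - l) = m by omega, hm,
      Nat.div_eq_of_lt (Nat.one_lt_two_pow (by omega))] at hl
    omega
  have := key _ _ h3 h4
  have := key _ _ h4 h3
  congr 1
  omega

theorem growth (b : ℕ × ℕ → ℝ) (x : ℝ) (hs : Summable fun q => (b q * hn (ix q) x) ^ 2) (m n : ℕ) :
    |∑ q ∈ Finset.range (m + 1) ×ˢ Finset.range (n + 1), b q * hn (ix q) x| / Real.sqrt (lam m n) ≤
      Real.sqrt (∑' q, (b q * hn (ix q) x) ^ 2) := by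
  classical
  set R := Finset.range (m + 1) ×ˢ Finset.range (n + 1) with hR
  set F := R.filter (fun q => hn (ix q) x ≠ 0) with hF
  have h1 : ∑ q ∈ R, b q * hn (ix q) x = ∑ q ∈ F, b q * hn (ix q) x := by
    rw [hF, Finset.sum_filter_of_ne]
    intro q _ hq
    exact right_ne_zero_of_mul hq
  have h2 : F.card ≤ 1 + (R.filter bad).card := by
    rw [← Finset.card_filter_add_card_filter_not (s := F) bad, add_comm]
    apply add_le_add
    · rw [Finset.card_le_one]
      intro q hq r hr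
      simp only [hF, Finset.mem_filter] at hq hr
      exact good_unique q r hq.2 hr.2 x hq.1.2 hr.1.2
    · exact Finset.card_le_card (Finset.filter_subset_filter _ (Finset.filter_subset _ _))
  have h3 : (F.card : ℝ) ≤ lam m n := by
    rw [lam_eq]; exact_mod_cast h2
  have h4 := sq_sum_le_card_mul_sum_sq (s := F) (f := fun q => b q * hn (ix q) x)
  have h5 : ∑ q ∈ F, (b q * hn (ix q) x) ^ 2 ≤ ∑' q, (b q * hn (ix q) x) ^ 2 :=
    hs.sum_le_tsum _ fun q _ => sq_nonneg _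
  have h6 : 0 ≤ ∑ q ∈ F, (b q * hn (ix q) x) ^ 2 := Finset.sum_nonneg fun q _ => sq_nonneg _
  rw [div_le_iff₀ (Real.sqrt_pos.mpr (lam_pos m n)), ← Real.sqrt_mul (h6.trans h5), h1]
  apply Real.abs_le_sqrt
  refine h4.trans ?_
  rw [mul_comm]
  exact mul_le_mul h5 h3 (by positivity) (h6.trans h5)

/-- block coefficient -/
noncomputable def cc (l : ℕ) : ℝ := 2 / (len (blk l) (M (blk l)) : ℝ)

theorem cc_pos (l : ℕ) : 0 < cc l := div_pos two_pos (Nat.cast_pos.mpr (len_pos _ _))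

open Classical in
/-- the coefficients -/
noncomputable def aa (q : ℕ × ℕ) : ℝ :=
  if bad q then cc (ix q).1 * (Real.sqrt (2 ^ (ix q).1))⁻¹ else 0

/-- majorant per level -/
noncomputable def G (l : ℕ) : ℝ := (1 / 2) ^ blk l / (len (blk l) (M (blk l)) : ℝ)

theorem G_nonneg (l : ℕ) : 0 ≤ G l := by unfold G; positivity

theorem G_sum (n : ℕ) : ∑ l ∈ Finset.range (M n), G l = ∑ j ∈ Finset.range n, (1 / 2 : ℝ) ^ j := by
  induction n with
  | zero => simp [M]
  | succ n ih =>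
    rw [Finset.sum_range_succ, ← ih, ← Finset.sum_range_add_sum_Ico _ (M_mono.monotone (Nat.le_succ n))]
    congr 1
    have : ∀ l ∈ Finset.Ico (M n) (M (n + 1)), G l = (1 / 2) ^ n / (len n (M n) : ℝ) := by
      intro l hl
      rw [Finset.mem_Ico] at hl
      rw [G, blk_eq l n hl.1 hl.2]
    rw [Finset.sum_congr rfl this, Finset.sum_const, Nat.card_Ico, M, Nat.add_sub_cancel_left,
      nsmul_eq_mul]
    have h0 : (0 : ℝ) < len n (M n) := Nat.cast_pos.mpr (len_pos _ _)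
    field_simp

theorem G_summable : Summable G := by
  refine summable_of_sum_range_le (c := 2) G_nonneg fun n => ?_
  refine le_trans ?_ ((G_sum n).trans_le (sum_geometric_two_le n))
  exact Finset.sum_le_sum_of_subset_of_nonneg (Finset.range_mono (M_mono.id_le n)) fun _ _ _ => G_nonneg _

/-- majorant per Haar index -/
noncomputable def g (b : ℕ × ℕ) : ℝ := if b.2 < 2 ^ b.1 then G b.1 / 2 ^ b.1 else 0

theorem g_summable : Summable g := by
  have h0 : 0 ≤ g := fun b => by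
    have := G_nonneg b.1
    unfold g; split_ifs <;> positivity
  have h1 : ∀ l, HasSum (fun p => g (l, p)) (G l) := by
    intro l
    have h2 : ∑ p ∈ Finset.range (2 ^ l), g (l, p) = G l := by
      rw [Finset.sum_congr rfl (g := fun _ => G l / 2 ^ l) fun p hp => by
        simp only [g]; rw [if_pos (Finset.mem_range.mp hp)]]
      simp only [Finset.sum_const, Finset.card_range, nsmul_eq_mul]
      push_cast
      field_simp
    rw [← h2]
    apply hasSum_sum_of_ne_finset_zero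
    intro p hp
    simp only [g]
    rw [if_neg (by simpa using hp)]
  rw [summable_prod_of_nonneg h0]
  refine ⟨fun l => (h1 l).summable, ?_⟩
  simp only [fun l => (h1 l).tsum_eq]
  exact G_summable

theorem aa_summable : Summable fun q : ℕ × ℕ => aa q ^ 2 * lam q.1 q.2 := by
  refine Summable.of_nonneg_of_le (fun q => mul_nonneg (sq_nonneg _) (lam_pos _ _).le) (fun q => ?_)
    (g_summable.comp_injective ix_inj)
  simp only [Function.comp, g, if_pos (ix_valid q)]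
  by_cases hq : bad q
  · have h1 := lam_io _ (ix_bad q hq).1
    rw [(ix_bad q hq).2] at h1
    rw [aa, if_pos hq, mul_pow, inv_pow, Real.sq_sqrt (by positivity)]
    refine (mul_le_mul_of_nonneg_left h1 (by positivity)).trans (le_of_eq ?_)
    rw [cc, G, len]
    push_cast
    rw [one_div, inv_pow]
    field_simp
    ring
  · have := G_nonneg (ix q).1
    rw [aa, if_neg hq]
    simp only [ne_eq, OfNat.ofNat_ne_zero, not_false_eq_true, zero_pow, zero_mul]
    positivity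

theorem u_bad (q : ℕ × ℕ) (hq : bad q) (x : ℝ) :
    aa q * hn (ix q) x = cc (ix q).1 * h (ix q).1 (ix q).2 x := by
  rw [aa, if_pos hq, hn]
  have : 0 < Real.sqrt (2 ^ (ix q).1) := Real.sqrt_pos.mpr (by positivity)
  field_simp

theorem u_sign (q : ℕ × ℕ) (n : ℕ) (x : ℝ) (h1 : 2 ^ n < q.1) (h2 : q.1 ≤ 2 ^ (n + 1)) :
    (q.1 ≤ D (n + 1) x → 0 ≤ aa q * hn (ix q) x) ∧ (D (n + 1) x < q.1 → aa q * hn (ix q) x ≤ 0) := by
  by_cases hq : bad q
  · rw [u_bad q hq]
    obtain ⟨hB, hio⟩ := ix_bad q hq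
    have h3 : tt (ix q) = q.1 := congrArg Prod.fst hio
    have h4 := tt_bd _ hB
    rw [h3] at h4
    have h5 : N (ix q).1 = n := pow_sandwich _ _ _ h4.1 h4.2.le h1 h2
    have h6 := le_N (ix q).1
    have h7 : D ((ix q).1 + 1) x = D (n + 1) x / 2 ^ (n - (ix q).1) := by
      rw [D_div _ (n - (ix q).1)]; congr 2; omega
    rw [tt, h5] at h3
    have h8 := cc_pos (ix q).1
    have h9 : 0 < 2 ^ (n - (ix q).1) := by positivity
    rw [h, h7, H, ← h3]
    constructor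
    · intro h10
      have := (Nat.le_div_iff_mul_le h9).mpr h10
      split_ifs <;> first | omega | positivity | simp
    · intro h10
      have := (Nat.div_lt_iff_lt_mul h9).mpr h10
      split_ifs <;> first | omega | (simp; done) | linarith
  · simp [aa, hq]

theorem jump (x : ℝ) (hx : x ∈ Set.Ico (1 / 2 : ℝ) 1) (j : ℕ) :
    let R := fun m => ∑ i ∈ Finset.range (m + 1), ∑ k ∈ Finset.range (2 ^ M (j + 2) + 1),
      aa (i, k) * hn (ix (i, k)) x
    2 ^ (M (j + 2) - 1) ≤ D (M (j + 2)) x ∧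
      2 ≤ 2 * R (D (M (j + 2)) x) - R (2 ^ (M (j + 2) - 1)) - R (2 ^ M (j + 2)) := by
  intro R
  have hD : ∀ l, 2 ^ l ≤ D (l + 1) x ∧ D (l + 1) x < 2 ^ (l + 1) := by
    intro l
    have hp : (0 : ℝ) < 2 ^ l := by positivity
    constructor
    · apply Nat.le_floor
      push_cast
      rw [pow_succ]; nlinarith [hx.1]
    · rw [D, Nat.floor_lt (by have := hx.1; positivity)]
      push_cast
      rw [pow_succ]; nlinarith [hx.2]
  have hM1 : 0 < M (j + 1) := lt_of_lt_of_le (Nat.succ_pos j) (M_mono.id_le _)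
  have hM2 : M (j + 1) < M (j + 2) := M_mono (by omega)
  obtain ⟨n, hn⟩ : ∃ n, M (j + 2) = n + 1 := ⟨M (j + 2) - 1, by omega⟩
  simp only [R]
  rw [hn, Nat.add_sub_cancel]
  refine ⟨(hD n).1, ?_⟩
  set T := D (n + 1) x with hT
  set r := fun i => ∑ k ∈ Finset.range (2 ^ (n + 1) + 1), aa (i, k) * Pool.Agent.H96.Haar.hn (ix (i, k)) x
    with hr
  set s := fun i => ∑ k ∈ Finset.range (2 ^ (n + 1) + 1), |aa (i, k) * Pool.Agent.H96.Haar.hn (ix (i, k)) x|
    with hs
  have h1 := Finset.sum_range_add_sum_Ico r (show 2 ^ n + 1 ≤ T + 1 from Nat.succ_le_succ (hD n).1)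
  have h2 := Finset.sum_range_add_sum_Ico r (show T + 1 ≤ 2 ^ (n + 1) + 1 from
    Nat.succ_le_succ (hD n).2.le)
  have h3 := Finset.sum_Ico_consecutive s (show 2 ^ n + 1 ≤ T + 1 from Nat.succ_le_succ (hD n).1)
    (show T + 1 ≤ 2 ^ (n + 1) + 1 from Nat.succ_le_succ (hD n).2.le)
  have h4 : ∑ i ∈ Finset.Ico (2 ^ n + 1) (T + 1), r i = ∑ i ∈ Finset.Ico (2 ^ n + 1) (T + 1), s i := by
    refine Finset.sum_congr rfl fun i hi => Finset.sum_congr rfl fun k _ => ?_
    rw [Finset.mem_Ico] at hi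
    have := (hD n).2
    exact (abs_of_nonneg ((u_sign (i, k) n x (by omega) (by omega)).1 (by omega))).symm
  have h5 : ∑ i ∈ Finset.Ico (T + 1) (2 ^ (n + 1) + 1), s i =
      -∑ i ∈ Finset.Ico (T + 1) (2 ^ (n + 1) + 1), r i := by
    rw [← Finset.sum_neg_distrib]
    refine Finset.sum_congr rfl fun i hi => ?_
    rw [← Finset.sum_neg_distrib]
    refine Finset.sum_congr rfl fun k _ => ?_
    rw [Finset.mem_Ico] at hi
    have := (hD n).1
    exact abs_of_nonpos ((u_sign (i, k) n x (by omega) (by omega)).2 (by omega))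
  have h6 : 2 ≤ ∑ i ∈ Finset.Ico (2 ^ n + 1) (2 ^ (n + 1) + 1), s i := by
    have hB : ∀ l ∈ Finset.Ico (M (j + 1)) (M (j + 2)), B (l, D l x) ∧ blk l = j + 1 ∧ N l = n := by
      intro l hl
      rw [Finset.mem_Ico] at hl
      have hb := blk_eq l (j + 1) hl.1 hl.2
      refine ⟨?_, hb, by rw [N, hb, hn]; rfl⟩
      obtain ⟨l, rfl⟩ : ∃ m, l = m + 1 := ⟨l - 1, by omega⟩
      have := hD l
      constructor <;> simp only [pow_succ] at this ⊢ <;> omega
    simp only [hs]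
    rw [← Finset.sum_product' (f := fun i k => |aa (i, k) * Pool.Agent.H96.Haar.hn (ix (i, k)) x|)]
    refine le_trans ?_ (Finset.sum_le_sum_of_subset_of_nonneg
      (s := (Finset.Ico (M (j + 1)) (M (j + 2))).image fun l => io (l, D l x)) ?_
      fun _ _ _ => abs_nonneg _)
    · rw [Finset.sum_image]
      · have : ∀ l ∈ Finset.Ico (M (j + 1)) (M (j + 2)),
            |aa ((io (l, D l x)).1, (io (l, D l x)).2) *
              Pool.Agent.H96.Haar.hn (ix ((io (l, D l x)).1, (io (l, D l x)).2)) x| =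
            2 / (len (j + 1) (M (j + 1)) : ℝ) := by
          intro l hl
          obtain ⟨h7, h8, -⟩ := hB l hl
          rw [Prod.mk.eta, u_bad _ ⟨_, h7, rfl⟩, ix_io _ h7, abs_mul, h_abs, if_pos rfl, mul_one,
            abs_of_pos (cc_pos _), cc, h8]
        rw [Finset.sum_congr rfl this, Finset.sum_const, Nat.card_Ico, M, Nat.add_sub_cancel_left,
          nsmul_eq_mul]
        have h0 : (0 : ℝ) < len (j + 1) (M (j + 1)) := Nat.cast_pos.mpr (len_pos _ _)
        apply le_of_eq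
        field_simp
      · intro l hl m hm hlm
        exact congrArg Prod.fst (tt_inj _ _ (hB l hl).1 (hB m hm).1 (congrArg Prod.fst hlm))
    · intro q hq
      obtain ⟨l, hl, rfl⟩ := Finset.mem_image.mp hq
      obtain ⟨h7, -, h8⟩ := hB l hl
      have h9 := tt_bd _ h7
      simp only [h8] at h9
      simp only [io, h8, Finset.mem_product, Finset.mem_Ico, Finset.mem_range, pow_succ] at h9 ⊢
      omega
  linarith

theorem diverge (x : ℝ) (hx : x ∈ Set.Ico (1 / 2 : ℝ) 1) (L : ℝ) :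
    ¬ Tendsto (fun p : ℕ × ℕ => ∑ i ∈ Finset.range (p.1 + 1), ∑ k ∈ Finset.range (p.2 + 1),
      aa (i, k) * hn (ix (i, k)) x) atTop (𝓝 L) := by
  intro hL
  obtain ⟨p, hp⟩ := (Metric.tendsto_atTop.mp hL) (1 / 2) (by norm_num)
  obtain ⟨h1, h2⟩ := jump x hx (p.1 + p.2)
  have h3 : p.1 + p.2 + 2 ≤ M (p.1 + p.2 + 2) := M_mono.id_le _
  have h4 : M (p.1 + p.2 + 2) - 1 < 2 ^ (M (p.1 + p.2 + 2) - 1) := Nat.lt_two_pow_self
  have h5 : M (p.1 + p.2 + 2) < 2 ^ (M (p.1 + p.2 + 2)) := Nat.lt_two_pow_self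
  have h6 := hp (D (M (p.1 + p.2 + 2)) x, 2 ^ M (p.1 + p.2 + 2)) ⟨by simp only; omega, by simp only; omega⟩
  have h7 := hp (2 ^ (M (p.1 + p.2 + 2) - 1), 2 ^ M (p.1 + p.2 + 2))
    ⟨by simp only; omega, by simp only; omega⟩
  have h8 := hp (2 ^ M (p.1 + p.2 + 2), 2 ^ M (p.1 + p.2 + 2))
    ⟨by simp only; omega, by simp only; omega⟩
  simp only [Real.dist_eq, abs_lt] at h2 h6 h7 h8
  linarith [h6.1, h6.2, h7.1, h7.2, h8.1, h8.2]

theorem result : ∃ (lam : ℕ → ℕ → ℝ) (φ : ℕ → ℕ → ℝ × ℝ → ℝ) (a : ℕ → ℕ → ℝ),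
    (∀ i k, 0 < lam i k) ∧ (∀ i k, lam i k ≤ lam (i + 1) k) ∧ (∀ i k, lam i k ≤ lam i (k + 1)) ∧
    Tendsto (fun p : ℕ × ℕ => lam p.1 p.2) atTop atTop ∧
    (∀ i k, 0 ≤ lam (i + 1) (k + 1) - lam (i + 1) k - lam i (k + 1) + lam i k) ∧
    (∀ i k, MemLp (φ i k) 2 sqm) ∧
    (∀ i k j l, ∫ z, φ i k z * φ j l z ∂sqm = if (i, k) = (j, l) then 1 else 0) ∧
    (∀ b : ℕ → ℕ → ℝ, Summable (fun p : ℕ × ℕ => b p.1 p.2 ^ 2) →
      ∀ᵐ z ∂sqm, ∃ C : ℝ, ∀ m n, |S b φ m n z| / Real.sqrt (lam m n) ≤ C) ∧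
    Summable (fun p : ℕ × ℕ => a p.1 p.2 ^ 2 * lam p.1 p.2) ∧
    (∀ z ∈ Set.Ico (1 / 2 : ℝ) 1 ×ˢ Set.Icc (0 : ℝ) 1,
      ¬ ∃ L : ℝ, Tendsto (fun p : ℕ × ℕ => S a φ p.1 p.2 z) atTop (𝓝 L)) ∧
    ¬ ∀ᵐ z ∂sqm, ∃ L : ℝ, Tendsto (fun p : ℕ × ℕ => S a φ p.1 p.2 z) atTop (𝓝 L) := by
  refine ⟨lam, fun i k z => hn (ix (i, k)) z.1, fun i k => aa (i, k), lam_pos,
    fun i k => lam_mono (i, k) (i + 1, k) ⟨Nat.le_succ i, le_rfl⟩,
    fun i k => lam_mono (i, k) (i, k + 1) ⟨le_rfl, Nat.le_succ k⟩, lam_top, lam_delta,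
    fun i k => ?_, fun i k j l => ?_, fun b hb => ?_, aa_summable, ?_, ?_⟩
  · rw [sqm_eq]
    exact MemLp.of_bound ((hn_meas _).comp measurable_fst).aestronglyMeasurable _
      (Eventually.of_forall fun z => hn_le _ _)
  · rw [sqm_eq, integral_fun_fst (fun x => hn (ix (i, k)) x * hn (ix (j, l)) x),
      int_hn _ _ (ix_valid _) (ix_valid _)]
    simp only [probReal_univ, one_smul, ix_inj.eq_iff]
  · rw [sqm_eq]
    have h1 := ae_summable ix ix_valid (fun p => b p.1 p.2) hb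
    filter_upwards [(measurePreserving_fst (μ := nu) (ν := nu)).quasiMeasurePreserving.ae h1] with z hz
    refine ⟨Real.sqrt (∑' q : ℕ × ℕ, (b q.1 q.2 * hn (ix q) z.1) ^ 2), fun m n => ?_⟩
    have := growth (fun p => b p.1 p.2) z.1 hz m n
    rw [Finset.sum_product] at this
    exact this
  · rintro z hz ⟨L, hL⟩
    exact diverge z.1 hz.1 L hL
  · rw [sqm_eq]
    intro hae
    have h1 : ∀ᵐ x ∂nu, x ∉ Set.Ico (1 / 2 : ℝ) 1 := by
      filter_upwards [Measure.ae_ae_of_ae_prod hae] with x hx hx2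
      obtain ⟨y, L, hL⟩ := hx.exists
      exact diverge x hx2 L hL
    have h2 : Set.Ico (1 / 2 : ℝ) 1 ⊆ Set.Icc 0 1 := fun x hx => ⟨by linarith [hx.1], hx.2.le⟩
    rw [← measure_eq_zero_iff_ae_notMem, nu, Measure.restrict_apply measurableSet_Ico,
      Set.inter_eq_left.mpr h2, Real.volume_Ico] at h1
    norm_num at h1

end Pool.Agent.Results.MP_8173ef_an.Counter
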